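import Pool.Agent.Helper80.RM.Raise
import Pool.Agent.Helper84.TransportDefs

/-!
The robust matching algorithm on the server sites and its analysis.
-/

namespace Pool.Agent.Helper80.RM

open Finset Pool.Agent.Helper84.Transport
open scoped ENNReal

variable {m : ℕ}

section

variable [NeZero m] (c : Fin m → ℕ) (t : ℝ) {N : Type} [MetricSpace N]

/-- The next state and the server site used for the request `n`. -/
noncomputable def step (s : Fin m → N) (n : ℕ) (r : ℕ → N)
    (p : (ℕ → Fin m) × (Fin m → ℝ)) : ((ℕ → Fin m) × (Fin m → ℝ)) × Fin m := by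
  classical
  exact
  if h : ∃ q : ((ℕ → Fin m) × (Fin m → ℝ)) × Fin m,
    StepRel (fun i k => dist (s i) (r k)) (fun i j => dist (s i) (s j)) t c n p.1 p.2 q.1.1 q.1.2
      q.2 then h.choose else (p, 0)

theorem step_spec (s : Fin m → N) (n : ℕ) (r : ℕ → N) (p : (ℕ → Fin m) × (Fin m → ℝ))
    (ht : 1 ≤ t) (hI : Inv (fun i k => dist (s i) (r k)) t c n p.1 p.2) (hn : n < ∑ i, c i) :
    StepRel (fun i k => dist (s i) (r k)) (fun i j => dist (s i) (s j)) t c n p.1 p.2
      (step c t s n r p).1.1 (step c t s n r p).1.2 (step c t s n r p).2 := by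
  have h : ∃ q : ((ℕ → Fin m) × (Fin m → ℝ)) × Fin m,
      StepRel (fun i k => dist (s i) (r k)) (fun i j => dist (s i) (s j)) t c n p.1 p.2 q.1.1 q.1.2
        q.2 := by
    obtain ⟨f', z', u, h⟩ := step_exists (D := fun i k => dist (s i) (r k))
      (dd := fun i j => dist (s i) (s j)) ht
      (fun i k => dist_nonneg) (fun u i k => by
        have := dist_triangle (s u) (r k) (s i)
        rw [dist_comm (r k) (s i)] at this
        exact this) (fun i => dist_self _) (fun u v w => dist_triangle _ _ _)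
      (fun u i k => dist_triangle _ _ _) hI hn
    exact ⟨((f', z'), u), h⟩
  unfold step
  rw [dif_pos h]
  exact h.choose_spec

/-- The sequence that agrees with `r` up to time `n` and is constant afterwards. -/
def trunc (r : ℕ → N) (n : ℕ) : ℕ → N := fun k => r (min k n)

/-- The state after `n` requests. -/
noncomputable def st (s : Fin m → N) (r : ℕ → N) : ℕ → (ℕ → Fin m) × (Fin m → ℝ)
  | 0 => (fun _ => 0, fun _ => 0)
  | n + 1 => (step c t s n (trunc r n) (st s r n)).1

/-- The site used for the request `n`. -/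
noncomputable def site (s : Fin m → N) (r : ℕ → N) (n : ℕ) : Fin m :=
  (step c t s n (trunc r n) (st c t s r n)).2

theorem st_congr (s : Fin m → N) (r r' : ℕ → N) (n : ℕ) (h : ∀ k < n, r k = r' k) :
    st c t s r n = st c t s r' n := by
  induction n with
  | zero => rfl
  | succ n ih =>
    have h1 : trunc r n = trunc r' n := by
      funext k
      exact h _ (Nat.lt_succ_of_le (min_le_right k n))
    simp only [st, h1, ih fun k hk => h k (by omega)]

theorem site_trunc (s : Fin m → N) (r : ℕ → N) (n : ℕ) :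
    site c t s (trunc r n) n = site c t s r n := by
  have h1 : trunc (trunc r n) n = trunc r n := by
    funext k
    simp [trunc]
  have h2 : st c t s (trunc r n) n = st c t s r n := by
    apply st_congr
    intro k hk
    simp [trunc, min_eq_left hk.le]
  simp only [site, h1, h2]

omit [NeZero m] in
theorem feas_trunc {s : Fin m → N} {r : ℕ → N} {n : ℕ} {f : ℕ → Fin m} {z : Fin m → ℝ}
    {n' : ℕ} (hn : n' ≤ n + 1) :
    Feas (fun i k => dist (s i) (trunc r n k)) t n' f z ↔
      Feas (fun i k => dist (s i) (r k)) t n' f z := by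
  unfold Feas
  refine forall_congr' fun k => ?_
  refine imp_congr_right fun hk => ?_
  have : trunc r n k = r k := by simp [trunc, min_eq_left (show k ≤ n by omega)]
  simp only [this]

theorem inv_trunc {s : Fin m → N} {r : ℕ → N} {n : ℕ} {f : ℕ → Fin m} {z : Fin m → ℝ}
    {n' : ℕ} (hn : n' ≤ n + 1) :
    Inv (fun i k => dist (s i) (trunc r n k)) t c n' f z ↔
      Inv (fun i k => dist (s i) (r k)) t c n' f z :=
  ⟨fun h => ⟨h.nonneg, (feas_trunc t hn).1 h.feas, h.cap, h.slack⟩,
    fun h => ⟨h.nonneg, (feas_trunc t hn).2 h.feas, h.cap, h.slack⟩⟩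

theorem stepRel_trunc {s : Fin m → N} {r : ℕ → N} {n : ℕ} {f : ℕ → Fin m} {z : Fin m → ℝ}
    {f' : ℕ → Fin m} {z' : Fin m → ℝ} {u : Fin m} :
    StepRel (fun i k => dist (s i) (trunc r n k)) (fun i j => dist (s i) (s j)) t c n f z f' z' u →
      StepRel (fun i k => dist (s i) (r k)) (fun i j => dist (s i) (s j)) t c n f z f' z' u := by
  intro h
  have hk : ∀ k ≤ n, trunc r n k = r k := fun k hk => by simp [trunc, min_eq_left hk]
  refine ⟨(inv_trunc c t le_rfl).1 h.inv, h.mono, h.load_eq, ?_⟩
  obtain ⟨A, B, hA, hB, hcost, hd, hy⟩ := h.acc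
  refine ⟨A, B, hA, hB, ?_, ?_, ?_⟩
  · have h1 : ∑ k ∈ range (n + 1), dist (s (f' k)) (trunc r n k) =
        ∑ k ∈ range (n + 1), dist (s (f' k)) (r k) := by
      apply Finset.sum_congr rfl
      intro k hk'
      rw [hk k (by have := mem_range.1 hk'; omega)]
    have h2 : ∑ k ∈ range n, dist (s (f k)) (trunc r n k) =
        ∑ k ∈ range n, dist (s (f k)) (r k) := by
      apply Finset.sum_congr rfl
      intro k hk'
      rw [hk k (by have := mem_range.1 hk'; omega)]
    simp only [h1, h2] at hcost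
    exact hcost
  · have := hd
    simp only [hk n le_rfl] at this
    exact this
  · intro i
    have := hy i
    simp only [hk n le_rfl] at this
    exact this

variable {c t}

theorem inv_zero (s : Fin m → N) (r : ℕ → N) :
    Inv (fun i k => dist (s i) (r k)) t c 0 (st c t s r 0).1 (st c t s r 0).2 := by
  refine ⟨fun i => le_rfl, fun k hk => absurd hk (by omega), fun i => ?_, fun i _ => rfl⟩
  simp [load]

theorem stepRel_of_inv (ht : 1 ≤ t) (s : Fin m → N) (r : ℕ → N) (n : ℕ)
    (hI : Inv (fun i k => dist (s i) (r k)) t c n (st c t s r n).1 (st c t s r n).2)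
    (hn : n < ∑ i, c i) :
    StepRel (fun i k => dist (s i) (r k)) (fun i j => dist (s i) (s j)) t c n
      (st c t s r n).1 (st c t s r n).2 (st c t s r (n + 1)).1 (st c t s r (n + 1)).2
      (site c t s r n) :=
  stepRel_trunc c t (step_spec c t s n (trunc r n) (st c t s r n) ht
    ((inv_trunc c t (by omega)).2 hI) hn)

theorem inv_all (ht : 1 ≤ t) (s : Fin m → N) (r : ℕ → N) (n : ℕ) (hn : n ≤ ∑ i, c i) :
    Inv (fun i k => dist (s i) (r k)) t c n (st c t s r n).1 (st c t s r n).2 := by
  induction n with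
  | zero => exact inv_zero s r
  | succ n ih => exact (stepRel_of_inv ht s r n (ih (by omega)) (by omega)).inv

theorem stepRel_all (ht : 1 ≤ t) (s : Fin m → N) (r : ℕ → N) (n : ℕ) (hn : n < ∑ i, c i) :
    StepRel (fun i k => dist (s i) (r k)) (fun i j => dist (s i) (s j)) t c n
      (st c t s r n).1 (st c t s r n).2 (st c t s r (n + 1)).1 (st c t s r (n + 1)).2
      (site c t s r n) :=
  stepRel_of_inv ht s r n (inv_all ht s r n hn.le) hn

theorem load_site (ht : 1 ≤ t) (s : Fin m → N) (r : ℕ → N) (n : ℕ) (hn : n ≤ ∑ i, c i)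
    (x : Fin m) : load n (site c t s r) x = load n (st c t s r n).1 x := by
  induction n with
  | zero => simp [load]
  | succ n ih =>
    rw [(stepRel_all ht s r n (by omega)).load_eq x, ← ih (by omega)]
    unfold load
    rw [Finset.sum_range_succ]

omit [NeZero m] in
theorem ncard_eq_load (n : ℕ) (f : ℕ → Fin m) (x : Fin m) :
    {j | j < n ∧ f j = x}.ncard = load n f x := by
  classical
  have : {j | j < n ∧ f j = x} = ↑((range n).filter fun j => f j = x) := by
    ext j
    simp
  rw [this, Set.ncard_coe_finset, load, Finset.card_filter]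

theorem z_mono (ht : 1 ≤ t) (s : Fin m → N) (r : ℕ → N) (n n' : ℕ) (hnn : n ≤ n')
    (hn : n' ≤ ∑ i, c i) (i : Fin m) : (st c t s r n).2 i ≤ (st c t s r n').2 i := by
  induction n', hnn using Nat.le_induction with
  | base => exact le_rfl
  | succ k hk ih => exact (ih (by omega)).trans ((stepRel_all ht s r k (by omega)).mono i)

omit [NeZero m] in
theorem sum_load (n : ℕ) (f : ℕ → Fin m) (z : Fin m → ℝ) :
    ∑ j ∈ range n, z (f j) = ∑ i, (load n f i : ℝ) * z i := by
  unfold load
  push_cast
  simp_rw [Finset.sum_mul]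
  rw [Finset.sum_comm]
  simp

/-- The analysis of the algorithm. -/
theorem analysis (ht : 1 < t) (a : Fin m → ℕ) (K : ℝ)
    (hK : ∀ i, (c i : ℝ) ≤ K * ((c i : ℝ) - a i)) (hK1 : 1 ≤ K)
    (s : Fin m → N) (r : ℕ → N) (n : ℕ) (hn : n ≤ ∑ i, c i)
    (o : ℕ → Fin m) (ho : ∀ i, load n o i ≤ a i) :
    ∑ j ∈ range n, dist (s (site c t s r j)) (r j) ≤
      2 * K * t / (t - 1) * ∑ j ∈ range n, dist (s (o j)) (r j) := by
  set O := ∑ j ∈ range n, dist (s (o j)) (r j) with hO
  have hOnn : 0 ≤ O := Finset.sum_nonneg fun _ _ => dist_nonneg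
  set z := (st c t s r n).2 with hz
  set f := (st c t s r n).1 with hf
  have hI := inv_all (c := c) ht.le s r n hn
  -- telescoping
  have htel : ∀ k ≤ n, ∃ A B : ℝ, 0 ≤ A ∧ 0 ≤ B ∧
      ∑ j ∈ range k, dist (s ((st c t s r k).1 j)) (r j) = A - B ∧
      ∑ j ∈ range k, dist (s (site c t s r j)) (r j) ≤ A + B ∧
      t * A - B ≤ t * ∑ j ∈ range k, dist (s (o j)) (r j) + ∑ j ∈ range k, z (o j) := by
    intro k
    induction k with
    | zero => intro _; exact ⟨0, 0, le_rfl, le_rfl, by simp, by simp, by simp⟩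
    | succ k ih =>
      intro hk
      obtain ⟨A, B, hA, hB, h1, h2, h3⟩ := ih (by omega)
      obtain ⟨A', B', hA', hB', h1', h2', h3'⟩ :=
        (stepRel_all (c := c) ht.le s r k (by omega)).acc
      refine ⟨A + A', B + B', add_nonneg hA hA', add_nonneg hB hB', ?_, ?_, ?_⟩
      · rw [h1', h1]; ring
      · rw [Finset.sum_range_succ]; linarith
      · rw [Finset.sum_range_succ, Finset.sum_range_succ]
        have h4 := h3' (o k)
        have h5 := z_mono (c := c) ht.le s r (k + 1) n hk hn (o k)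
        rw [← hz] at h5
        linarith
  obtain ⟨A, B, hA, hB, h1, h2, h3⟩ := htel n le_rfl
  rw [← hf] at h1
  rw [sum_load] at h3
  have hcost : 0 ≤ A - B := by
    rw [← h1]; exact Finset.sum_nonneg fun _ _ => dist_nonneg
  -- weak duality
  have hdual : ∑ j ∈ range n, (dist (s (f j)) (r j) + z (f j)) ≤
      ∑ j ∈ range n, (t * dist (s (o j)) (r j) + z (o j)) := by
    apply Finset.sum_le_sum
    intro j hj
    exact hI.feas j (mem_range.1 hj) (o j)
  rw [Finset.sum_add_distrib, Finset.sum_add_distrib, ← Finset.mul_sum, h1, sum_load, sum_load]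
    at hdual
  have hfull : ∑ i, (load n f i : ℝ) * z i = ∑ i, (c i : ℝ) * z i := by
    apply Finset.sum_congr rfl
    intro i _
    rcases (hI.cap i).lt_or_eq with h | h
    · have := hI.slack i h
      rw [← hz] at this
      rw [this]; ring
    · rw [← hf] at h
      rw [h]
  rw [hfull] at hdual
  have hKz : K * ∑ i, (load n o i : ℝ) * z i ≤ (K - 1) * ∑ i, (c i : ℝ) * z i := by
    rw [Finset.mul_sum, Finset.mul_sum]
    apply Finset.sum_le_sum
    intro i _
    have h4 := hK i
    have h5 : (load n o i : ℝ) ≤ a i := by exact_mod_cast ho i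
    have h6 : 0 ≤ z i := hI.nonneg i
    have h7 : K * (load n o i : ℝ) ≤ (K - 1) * c i := by nlinarith
    nlinarith
  set S := ∑ i, (load n o i : ℝ) * z i with hS
  set C := ∑ i, (c i : ℝ) * z i with hC
  have hSle : S ≤ (K - 1) * (t * O) := by
    have h4 : C ≤ t * O + S := by linarith
    have h5 : K * S ≤ (K - 1) * (t * O + S) :=
      hKz.trans (mul_le_mul_of_nonneg_left h4 (by linarith))
    linarith
  have hfin : (t - 1) * A ≤ K * (t * O) := by
    have : t * A - B ≤ t * O + (K - 1) * (t * O) := by linarith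
    linarith
  have hA' : A ≤ K * (t * O) / (t - 1) := by
    rw [le_div_iff₀ (by linarith)]; linarith
  have : 2 * K * t / (t - 1) * O = 2 * (K * (t * O) / (t - 1)) := by ring
  rw [this]
  linarith

variable (c t)

/-- The online algorithm. -/
noncomputable def alg (ht : 1 ≤ t) (a : Fin m → ℕ) (hac : ∀ i, a i ≤ c i) :
    OnlineAlgorithm m a c where
  assign N _ s j r := site c t s (fun k => r ⟨min k j, by omega⟩) j
  feasible N _ s r n hn i := by
    have h1 : ∀ j, site c t s (fun k => r (min k j)) j = site c t s r j := fun j =>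
      site_trunc c t s r j
    simp only [h1]
    have hle : n ≤ ∑ i, c i := hn.trans (Finset.sum_le_sum fun i _ => hac i)
    rw [ncard_eq_load, load_site ht s r n hle]
    exact (inv_all ht s r n hle).cap i

theorem alg_cost (ht : 1 ≤ t) (a : Fin m → ℕ) (hac : ∀ i, a i ≤ c i) (s : Fin m → N)
    (r : ℕ → N) (n : ℕ) : (alg c t ht a hac).cost s r n =
      ENNReal.ofReal (∑ j ∈ range n, dist (s (site c t s r j)) (r j)) := by
  rw [OnlineAlgorithm.cost, ENNReal.ofReal_sum_of_nonneg fun _ _ => dist_nonneg]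
  apply Finset.sum_congr rfl
  intro j _
  rw [edist_dist]
  have h1 : (alg c t ht a hac).assign N s j (fun k => r k) = site c t s (trunc r j) j := rfl
  rw [h1, site_trunc]

end

theorem rstar_le_aux (hm : 0 < m) (a c : Fin m → ℕ) (K : ℝ)
    (hac : ∀ i, a i < c i) (hK : ∀ i, (c i : ℝ) ≤ K * ((c i : ℝ) - a i)) (t : ℝ) (ht : 1 < t) :
    Rstar a c ≤ ENNReal.ofReal (2 * K * t / (t - 1)) := by
  have : NeZero m := ⟨by omega⟩
  have hK1 : 1 ≤ K := by
    by_contra h
    push Not at h
    have h1 := hK 0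
    have h2 : (a 0 : ℝ) < c 0 := by exact_mod_cast hac 0
    have h3 : (0 : ℝ) ≤ a 0 := Nat.cast_nonneg _
    nlinarith
  have hKt : 0 ≤ 2 * K * t / (t - 1) := div_nonneg (by positivity) (by linarith)
  refine iInf_le_of_le (alg c t ht.le a fun i => (hac i).le) ?_
  refine iSup_le fun N => iSup_le fun _ => iSup_le fun s => iSup_le fun _ => iSup_le fun r =>
    iSup_le fun n => iSup_le fun hn => ?_
  apply ENNReal.div_le_of_le_mul
  have hle : n ≤ ∑ i, c i := hn.trans (Finset.sum_le_sum fun i _ => (hac i).le)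
  have hKt' : ENNReal.ofReal (2 * K * t / (t - 1)) ≠ 0 := by
    rw [Ne, ENNReal.ofReal_eq_zero, not_le]
    exact div_pos (by positivity) (by linarith)
  rw [opt, ENNReal.mul_iInf_of_ne hKt' ENNReal.ofReal_ne_top]
  refine le_iInf fun o => ?_
  rw [ENNReal.mul_iInf_of_ne hKt' ENNReal.ofReal_ne_top]
  refine le_iInf fun ho => ?_
  have ho' : ∀ i, load n o i ≤ a i := fun i => by
    rw [← ncard_eq_load]; exact ho i
  have h1 : ∑ j ∈ range n, edist (s (o j)) (r j) =
      ENNReal.ofReal (∑ j ∈ range n, dist (s (o j)) (r j)) := by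
    rw [ENNReal.ofReal_sum_of_nonneg fun _ _ => dist_nonneg]
    exact Finset.sum_congr rfl fun j _ => edist_dist _ _
  rw [alg_cost, h1, ← ENNReal.ofReal_mul hKt]
  exact ENNReal.ofReal_le_ofReal (analysis ht a K hK hK1 s r n hle o ho')

theorem rstar_le (hm : 0 < m) (a c : Fin m → ℕ) (K : ℝ)
    (hac : ∀ i, a i < c i) (hK : ∀ i, (c i : ℝ) ≤ K * ((c i : ℝ) - a i)) :
    Rstar a c ≤ ENNReal.ofReal (2 * K) := by
  have hlim : Filter.Tendsto (fun t : ℝ => 2 * K * t / (t - 1)) Filter.atTop (nhds (2 * K)) := by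
    have h1 : Filter.Tendsto (fun t : ℝ => 2 * K + 2 * K * (t - 1)⁻¹) Filter.atTop
        (nhds (2 * K + 2 * K * 0)) := by
      refine tendsto_const_nhds.add (tendsto_const_nhds.mul ?_)
      exact tendsto_inv_atTop_zero.comp (Filter.tendsto_atTop_add_const_right _ _ Filter.tendsto_id)
    rw [mul_zero, add_zero] at h1
    refine h1.congr' ?_
    filter_upwards [Filter.eventually_gt_atTop 1] with t ht
    have : t - 1 ≠ 0 := by linarith
    field_simp
    ring
  refine ge_of_tendsto (ENNReal.tendsto_ofReal hlim) ?_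
  filter_upwards [Filter.eventually_gt_atTop 1] with t ht
  exact rstar_le_aux hm a c K hac hK t ht

end Pool.Agent.Helper80.RM
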