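import Pool.Agent.Helper80.RM.Step

/-!
The optimal dual update for a new request.
-/

namespace Pool.Agent.Helper80.RM

open Finset

variable {m : ℕ}

/-- Maximal price `y` of the new request `n`, with a tight chain from it to a free site. -/
theorem raise [NeZero m] {D : Fin m → ℕ → ℝ} {t : ℝ} {z : Fin m → ℝ} {free : Set (Fin m)}
    (hfree : free.Nonempty) (n : ℕ) (f : ℕ → Fin m) (hF : Feas D t n f z) (hz : ∀ i, 0 ≤ z i)
    (hz0 : ∀ i ∈ free, z i = 0) (hpos : ∀ i k, 0 ≤ t * D i k) :
    ∃ (z' : Fin m → ℝ) (y : ℝ), (∀ i, z i ≤ z' i) ∧ (∀ i ∈ free, z' i = 0) ∧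
      Feas D t n f z' ∧ (∀ i, y ≤ t * D i n + z' i) ∧
      ∃ i0, y = t * D i0 n + z' i0 ∧ ∃ l, Reach D t z' free n f l i0 := by
  classical
  -- the largest potential
  set Γ : Set (Fin m → ℝ) := {G | (∀ i, G i ≤ t * D i n) ∧
    ∀ k < n, ∀ i, G i ≤ G (f k) + t * D i k - D (f k) k} with hΓ
  have hΓne : (fun i => - z i) ∈ Γ := by
    refine ⟨fun i => ?_, fun k hk i => ?_⟩
    · have := hpos i n; have := hz i; simp only; linarith
    · have := hF k hk i; simp only; linarith
  set g : Fin m → ℝ := fun i => sSup ((fun G : Fin m → ℝ => G i) '' Γ) with hg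
  have hbdd : ∀ i, BddAbove ((fun G : Fin m → ℝ => G i) '' Γ) := by
    intro i
    refine ⟨t * D i n, ?_⟩
    rintro _ ⟨G, hG, rfl⟩
    exact hG.1 i
  have hle : ∀ G ∈ Γ, ∀ i, G i ≤ g i := fun G hG i =>
    le_csSup (hbdd i) ⟨G, hG, rfl⟩
  have hne : ∀ i, ((fun G : Fin m → ℝ => G i) '' Γ).Nonempty := fun i => ⟨_, _, hΓne, rfl⟩
  have hgΓ : g ∈ Γ := by
    refine ⟨fun i => ?_, fun k hk i => ?_⟩
    · apply csSup_le (hne i)
      rintro _ ⟨G, hG, rfl⟩
      exact hG.1 i
    · apply csSup_le (hne i)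
      rintro _ ⟨G, hG, rfl⟩
      have h1 := hG.2 k hk i
      have h2 := hle G hG (f k)
      simp only
      linarith
  obtain ⟨u0, hu0, hmin⟩ := Set.exists_min_image free g (Set.toFinite _) hfree
  set Δ := g u0 with hΔ
  -- no better price
  have hmax : ∀ (z' : Fin m → ℝ) (y : ℝ), (∀ i ∈ free, z' i = 0) →
      Feas D t n f z' → (∀ i, y ≤ t * D i n + z' i) → y ≤ Δ := by
    intro z' y h0 hF' hy
    have : (fun i => y - z' i) ∈ Γ := by
      refine ⟨fun i => ?_, fun k hk i => ?_⟩
      · have := hy i; simp only; linarith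
      · have := hF' k hk i; simp only; linarith
    have h1 := hle _ this u0
    simp only [h0 u0 hu0] at h1
    linarith
  set z' : Fin m → ℝ := fun i => max (z i) (Δ - g i) with hz'
  have hz'0 : ∀ i ∈ free, z' i = 0 := by
    intro i hi
    simp only [hz']
    rw [hz0 i hi]
    exact max_eq_left (by have := hmin i hi; linarith)
  have hF' : Feas D t n f z' := by
    intro k hk i
    simp only [hz']
    rcases max_cases (z (f k)) (Δ - g (f k)) with ⟨h, _⟩ | ⟨h, _⟩
    · rw [h]
      have h1 := hF k hk i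
      have h2 := le_max_left (z i) (Δ - g i)
      linarith
    · rw [h]
      have h1 := hgΓ.2 k hk i
      have h2 := le_max_right (z i) (Δ - g i)
      linarith
  have hy : ∀ i, Δ ≤ t * D i n + z' i := by
    intro i
    have h1 := hgΓ.1 i
    have h2 : Δ - g i ≤ z' i := le_max_right (z i) (Δ - g i)
    linarith
  refine ⟨z', Δ, fun i => le_max_left _ _, hz'0, hF', hy, ?_⟩
  by_contra hcon
  push Not at hcon
  -- sites that do not reach a free site by a tight chain are raised
  set R : Set (Fin m) := {i | ∀ l, ¬ Reach D t z' free n f l i} with hR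
  have hRfree : ∀ i ∈ free, i ∉ R := fun i hi hiR => hiR 0 hi
  have hroot : ∀ i, i ∉ R → Δ < t * D i n + z' i := by
    intro i hi
    refine lt_of_le_of_ne (hy i) fun h => ?_
    exact hi (hcon i h)
  have hedge : ∀ k < n, f k ∈ R → ∀ i, i ∉ R → D (f k) k + z' (f k) < t * D i k + z' i := by
    intro k hk hfk i hi
    refine lt_of_le_of_ne (hF' k hk i) fun h => ?_
    simp only [hR, Set.mem_ofPred_eq, not_forall, not_not] at hi
    obtain ⟨l, hl⟩ := hi
    exact hfk (l + 1) ⟨k, hk, rfl, i, h, hl⟩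
  have hev : ∀ᶠ ε in nhdsWithin (0 : ℝ) (Set.Ioi 0), 0 < ε ∧
      (∀ i, i ∉ R → ε ≤ t * D i n + z' i - Δ) ∧
      ∀ k ∈ range n, ∀ i, f k ∈ R → i ∉ R → ε ≤ t * D i k + z' i - (D (f k) k + z' (f k)) := by
    have hkey : ∀ x : ℝ, 0 < x → ∀ᶠ ε in nhdsWithin (0 : ℝ) (Set.Ioi 0), ε ≤ x := by
      intro x hx
      exact Filter.Eventually.filter_mono nhdsWithin_le_nhds (eventually_le_nhds hx)
    refine Filter.Eventually.and self_mem_nhdsWithin (Filter.Eventually.and ?_ ?_)
    · rw [Filter.eventually_all]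
      intro i
      by_cases hi : i ∈ R
      · exact Filter.Eventually.of_forall fun _ h => absurd hi h
      · filter_upwards [hkey _ (sub_pos.2 (hroot i hi))] with ε h _ using h
    · rw [Filter.eventually_all_finset]
      intro k hk
      rw [Filter.eventually_all]
      intro i
      by_cases hfk : f k ∈ R
      · by_cases hi : i ∈ R
        · exact Filter.Eventually.of_forall fun _ _ h => absurd hi h
        · filter_upwards [hkey _ (sub_pos.2 (hedge k (mem_range.1 hk) hfk i hi))] with ε h _ _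
            using h
      · exact Filter.Eventually.of_forall fun _ h => absurd h hfk
  obtain ⟨ε, hε, h1, h2⟩ := hev.exists
  have := hmax (fun i => if i ∈ R then z' i + ε else z' i) (Δ + ε) ?_ ?_ ?_
  · linarith
  · intro i hi
    simp only [if_neg (hRfree i hi), hz'0 i hi]
  · intro k hk i
    have hb := hF' k hk i
    by_cases hfk : f k ∈ R
    · by_cases hi : i ∈ R
      · simp only [if_pos hfk, if_pos hi]; linarith
      · simp only [if_pos hfk, if_neg hi]
        have := h2 k (mem_range.2 hk) i hfk hi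
        linarith
    · by_cases hi : i ∈ R
      · simp only [if_neg hfk, if_pos hi]; linarith
      · simp only [if_neg hfk, if_neg hi]; linarith
  · intro i
    by_cases hi : i ∈ R
    · simp only [if_pos hi]; have := hy i; linarith
    · simp only [if_neg hi]; have := h1 i hi; linarith

/-- The invariant of the algorithm after `n` requests. -/
structure Inv (D : Fin m → ℕ → ℝ) (t : ℝ) (c : Fin m → ℕ) (n : ℕ) (f : ℕ → Fin m)
    (z : Fin m → ℝ) : Prop where
  nonneg : ∀ i, 0 ≤ z i
  feas : Feas D t n f z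
  cap : ∀ i, load n f i ≤ c i
  slack : ∀ i, load n f i < c i → z i = 0

/-- One step of the algorithm. -/
structure StepRel (D : Fin m → ℕ → ℝ) (dd : Fin m → Fin m → ℝ) (t : ℝ) (c : Fin m → ℕ) (n : ℕ)
    (f : ℕ → Fin m) (z : Fin m → ℝ) (f' : ℕ → Fin m) (z' : Fin m → ℝ) (u : Fin m) : Prop where
  inv : Inv D t c (n + 1) f' z'
  mono : ∀ i, z i ≤ z' i
  load_eq : ∀ x, load (n + 1) f' x = load n f x + (if u = x then 1 else 0)
  acc : ∃ A B : ℝ, 0 ≤ A ∧ 0 ≤ B ∧
    ∑ k ∈ range (n + 1), D (f' k) k = ∑ k ∈ range n, D (f k) k + A - B ∧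
    D u n ≤ A + B ∧ ∀ i, t * A - B ≤ t * D i n + z' i

theorem load_sum (n : ℕ) (f : ℕ → Fin m) : ∑ i, load n f i = n := by
  unfold load
  rw [Finset.sum_comm]
  simp

theorem step_exists [NeZero m] {D : Fin m → ℕ → ℝ} {dd : Fin m → Fin m → ℝ} {t : ℝ} (ht : 1 ≤ t)
    {c : Fin m → ℕ} (hD : ∀ i k, 0 ≤ D i k)
    (hdd : ∀ u i k, dd u i ≤ D u k + D i k) (hdd0 : ∀ i, dd i i = 0)
    (htri : ∀ u v w, dd u w ≤ dd u v + dd v w) (htri' : ∀ u i k, D u k ≤ dd u i + D i k)
    {n : ℕ} {f : ℕ → Fin m} {z : Fin m → ℝ} (hI : Inv D t c n f z) (hn : n < ∑ i, c i) :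
    ∃ (f' : ℕ → Fin m) (z' : Fin m → ℝ) (u : Fin m), StepRel D dd t c n f z f' z' u := by
  have ht0 : (0 : ℝ) ≤ t := by linarith
  set free : Set (Fin m) := {i | load n f i < c i} with hfree
  have hne : free.Nonempty := by
    by_contra h
    rw [Set.not_nonempty_iff_eq_empty] at h
    have h1 : ∀ i, c i ≤ load n f i := by
      intro i
      by_contra h2
      have : i ∈ free := not_le.1 h2
      rw [h] at this
      exact this
    have h2 := Finset.sum_le_sum fun i (_ : i ∈ Finset.univ) => h1 i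
    rw [load_sum] at h2
    omega
  obtain ⟨z', y, hmono, hz'0, hF', hy, i0, hi0, l, hl⟩ :=
    raise hne n f hI.feas hI.nonneg (fun i hi => hI.slack i hi)
      (fun i k => mul_nonneg ht0 (hD i k))
  -- assign the new request to `i0`
  set f0 := Function.update f n i0 with hf0
  have hf0n : f0 n = i0 := Function.update_self ..
  have hf0k : ∀ k < n, f0 k = f k := fun k hk => Function.update_of_ne (by omega) ..
  have hF0 : Feas D t (n + 1) f0 z' := by
    intro k hk i
    rcases Nat.lt_succ_iff_lt_or_eq.1 hk with h | h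
    · rw [hf0k k h]; exact hF' k h i
    · subst h
      rw [hf0n]
      have h1 := hy i
      have h2 : D i0 k ≤ t * D i0 k := le_mul_of_one_le_left (hD _ _) ht
      linarith
  have hreach : ∀ (l : ℕ) (i : Fin m), Reach D t z' free n f l i →
      Reach D t z' free (n + 1) f0 l i := by
    intro l
    induction l with
    | zero => intro i hi; exact hi
    | succ l ih =>
      rintro i ⟨k, hk, hfk, i', htight, hr⟩
      exact ⟨k, by omega, by rw [hf0k k hk, hfk], i', htight, ih i' hr⟩
  obtain ⟨f', u, A, B, hu, hFf', hload, hA, hB, hcost, hdist, hzu⟩ :=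
    augment ht dd hD hdd hdd0 htri l f0 i0 hF0 (hreach l i0 hl)
  have hload0 : ∀ x, load (n + 1) f0 x = load n f x + (if i0 = x then 1 else 0) := by
    intro x
    unfold load
    rw [Finset.sum_range_succ, hf0n]
    congr 1
    apply Finset.sum_congr rfl
    intro k hk
    rw [hf0k k (mem_range.1 hk)]
  have hload' : ∀ x, load (n + 1) f' x = load n f x + (if u = x then 1 else 0) := by
    intro x
    have h1 := hload x
    rw [hload0 x] at h1
    omega
  have hu' : load n f u < c u := hu
  refine ⟨f', z', u, ⟨⟨fun i => (hI.nonneg i).trans (hmono i), hFf', ?_, ?_⟩, hmono, hload', ?_⟩⟩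
  · intro i
    rw [hload' i]
    by_cases h : u = i
    · subst h; simp; omega
    · rw [if_neg h]; exact hI.cap i
  · intro i hi
    apply hz'0
    have := hload' i
    have h2 : load n f i ≤ load (n + 1) f' i := by omega
    exact lt_of_le_of_lt h2 hi
  · refine ⟨A + D i0 n, B, add_nonneg hA (hD _ _), hB, ?_, ?_, ?_⟩
    · rw [hcost, Finset.sum_range_succ, hf0n]
      have : ∑ k ∈ range n, D (f0 k) k = ∑ k ∈ range n, D (f k) k := by
        apply Finset.sum_congr rfl
        intro k hk
        rw [hf0k k (mem_range.1 hk)]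
      rw [this]
      ring
    · have := htri' u i0 n
      linarith
    · intro i
      have h1 := hy i
      rw [hz'0 u hu] at hzu
      rw [hi0, hzu] at h1
      linarith

end Pool.Agent.Helper80.RM
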