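import Mathlib

/-!
One step of the robust matching algorithm on the server sites.
-/

namespace Pool.Agent.Helper80.RM

open Finset

variable {m : ℕ}

/-- The number of requests among the first `n` assigned to site `x`. -/
def load (n : ℕ) (f : ℕ → Fin m) (x : Fin m) : ℕ :=
  ∑ k ∈ range n, if f k = x then 1 else 0

theorem sum_update {β : Type*} [AddCommMonoid β] (n : ℕ) (f : ℕ → Fin m) (g : Fin m → ℕ → β)
    (k0 : ℕ) (hk : k0 < n) (v : Fin m) :
    ∑ k ∈ range n, g (Function.update f k0 v k) k + g (f k0) k0 =
      ∑ k ∈ range n, g (f k) k + g v k0 := by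
  have hmem : k0 ∈ range n := mem_range.2 hk
  rw [← Finset.add_sum_erase _ _ hmem, ← Finset.add_sum_erase (range n) (fun k => g (f k) k) hmem]
  have : ∑ k ∈ (range n).erase k0, g (Function.update f k0 v k) k =
      ∑ k ∈ (range n).erase k0, g (f k) k := by
    apply Finset.sum_congr rfl
    intro k hk'
    rw [Function.update_of_ne (Finset.ne_of_mem_erase hk')]
  rw [this]
  simp only [Function.update_self]
  abel

theorem load_update (n : ℕ) (f : ℕ → Fin m) (k0 : ℕ) (hk : k0 < n) (v x : Fin m) :
    load n (Function.update f k0 v) x + (if f k0 = x then 1 else 0) =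
      load n f x + (if v = x then 1 else 0) :=
  sum_update n f (fun i _ => if i = x then 1 else 0) k0 hk v

section

variable (D : Fin m → ℕ → ℝ) (t : ℝ) (z : Fin m → ℝ) (free : Set (Fin m)) (n : ℕ)

/-- Dual feasibility. -/
def Feas (n : ℕ) (f : ℕ → Fin m) (z : Fin m → ℝ) : Prop :=
  ∀ k < n, ∀ i, D (f k) k + z (f k) ≤ t * D i k + z i

/-- There is a chain of `l` tight moves from `i` to a free site. -/
def Reach (f : ℕ → Fin m) : ℕ → Fin m → Prop
  | 0, i => i ∈ free
  | l + 1, i => ∃ k < n, f k = i ∧ ∃ i', D i k + z i = t * D i' k + z i' ∧ Reach f l i'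

variable {D t z free n}

theorem reach_update {f : ℕ → Fin m} {k0 : ℕ} {v : Fin m} :
    ∀ (l : ℕ) (i : Fin m), Reach D t z free n f l i →
      (∀ l' ≤ l, ¬ Reach D t z free n f l' (f k0)) →
      Reach D t z free n (Function.update f k0 v) l i := by
  intro l
  induction l with
  | zero => intro i hi _; exact hi
  | succ l ih =>
    intro i hi hno
    have hi0 := hi
    obtain ⟨k, hk, hfk, i', htight, hr⟩ := hi
    have hne : k ≠ k0 := by
      rintro rfl
      apply hno (l + 1) le_rfl
      rw [hfk]
      exact hi0
    refine ⟨k, hk, ?_, i', htight, ih i' hr fun l' hl' => hno l' (by omega)⟩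
    rw [Function.update_of_ne hne, hfk]

end

/-- Augmentation along a tight chain. -/
theorem augment {D : Fin m → ℕ → ℝ} {t : ℝ} (ht : 1 ≤ t) {z : Fin m → ℝ} {free : Set (Fin m)}
    {n : ℕ} (dd : Fin m → Fin m → ℝ) (hD : ∀ i k, 0 ≤ D i k)
    (hdd : ∀ u i k, dd u i ≤ D u k + D i k) (hdd0 : ∀ i, dd i i = 0)
    (htri : ∀ u v w, dd u w ≤ dd u v + dd v w) :
    ∀ (l : ℕ) (f : ℕ → Fin m) (i : Fin m), Feas D t n f z → Reach D t z free n f l i →
      ∃ (f' : ℕ → Fin m) (u : Fin m) (A B : ℝ), u ∈ free ∧ Feas D t n f' z ∧
        (∀ x, load n f' x + (if i = x then 1 else 0) = load n f x + (if u = x then 1 else 0)) ∧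
        0 ≤ A ∧ 0 ≤ B ∧
        ∑ k ∈ range n, D (f' k) k = ∑ k ∈ range n, D (f k) k + A - B ∧
        dd u i ≤ A + B ∧ z i = t * A - B + z u := by
  intro l
  induction l using Nat.strong_induction_on with
  | _ l ih =>
    intro f i hF hR
    classical
    -- minimal length
    have hex : ∃ l, Reach D t z free n f l i := ⟨l, hR⟩
    have hmin := Nat.find_spec hex
    have hle : Nat.find hex ≤ l := Nat.find_min' hex hR
    rcases hl0 : Nat.find hex with _ | l0
    · rw [hl0] at hmin
      refine ⟨f, i, 0, 0, hmin, hF, fun x => rfl, le_rfl, le_rfl, by ring, ?_, by ring⟩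
      rw [hdd0]; norm_num
    · rw [hl0] at hmin
      obtain ⟨k, hk, hfk, i', htight, hr⟩ := hmin
      have hno : ∀ l' ≤ l0, ¬ Reach D t z free n f l' (f k) := by
        intro l' hl'
        rw [hfk]
        exact Nat.find_min hex (by omega)
      have hr' := reach_update (v := i') l0 i' hr hno
      have hF1 : Feas D t n (Function.update f k i') z := by
        intro k1 hk1 x
        by_cases h : k1 = k
        · subst h
          rw [Function.update_self]
          have h1 := hF k1 hk1 x
          rw [hfk] at h1
          have h2 : D i' k1 ≤ t * D i' k1 := le_mul_of_one_le_left (hD _ _) ht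
          linarith
        · rw [Function.update_of_ne h]
          exact hF k1 hk1 x
      obtain ⟨f', u, A, B, hu, hF', hload, hA, hB, hcost, hdist, hz⟩ :=
        ih l0 (by omega) _ i' hF1 hr'
      refine ⟨f', u, A + D i' k, B + D i k, hu, hF', ?_, add_nonneg hA (hD _ _),
        add_nonneg hB (hD _ _), ?_, ?_, ?_⟩
      · intro x
        have h1 := hload x
        have h2 := load_update n f k hk i' x
        rw [hfk] at h2
        omega
      · rw [hcost]
        have h2 := sum_update n f D k hk i'
        rw [hfk] at h2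
        linarith
      · have h1 := htri u i' i
        have h2 := hdd i' i k
        linarith
      · rw [hz] at htight
        linarith

end Pool.Agent.Helper80.RM
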